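import Pool.Agent.Q27.HT.Cls

/-!
# The subgroup generated by the roots of the powers of an element
-/

set_option autoImplicit false

namespace Q27.RH

open Q182.Cyl (InfOrd)
open Q27.HT (KC Det exists_finset)
open scoped commutatorElement

/-- `w` is a root of a power of `z` -/
def IsRt {G : Type} [Group G] (z w : G) : Prop := ∃ (a : ℕ) (b : ℤ), 0 < a ∧ b ≠ 0 ∧ w ^ a = z ^ b

/-- the subgroup generated by the roots of the powers `z ^ b`, `b ≠ 0` -/
def Rt {G : Type} [Group G] (z : G) : Subgroup G := Subgroup.closure {w | IsRt z w}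

/-- No positive power of an element `z` of infinite order is in the commutator subgroup of the
subgroup generated by all roots of all powers of `z`. -/
def RD (G : Type) [Group G] : Prop :=
  ∀ z : G, (∀ n : ℕ, 0 < n → z ^ n ≠ 1) → ∀ n : ℕ, 0 < n → z ^ n ∉ ⁅Rt z, Rt z⁆

theorem IsRt.self {G : Type} [Group G] (z : G) : IsRt z z :=
  ⟨1, 1, one_pos, one_ne_zero, by rw [pow_one, zpow_one]⟩

theorem self_mem_Rt {G : Type} [Group G] (z : G) : z ∈ Rt z := Subgroup.subset_closure (IsRt.self z)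

theorem IsRt.map {G H : Type} [Group G] [Group H] (f : G →* H) {z w : G} (h : IsRt z w) :
    IsRt (f z) (f w) := by
  obtain ⟨a, b, ha, hb, h⟩ := h
  exact ⟨a, b, ha, hb, by rw [← map_pow, h, map_zpow]⟩

theorem map_Rt {G H : Type} [Group G] [Group H] (f : G →* H) (z : G) :
    (Rt z).map f ≤ Rt (f z) := by
  rw [Rt, MonoidHom.map_closure]
  refine Subgroup.closure_mono ?_
  rintro _ ⟨w, hw, rfl⟩
  exact IsRt.map f hw

/-- homomorphisms preserve being in the commutator subgroup -/
theorem push {G H : Type} [Group G] [Group H] (f : G →* H) {z : G} {n : ℕ}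
    (h : z ^ n ∈ ⁅Rt z, Rt z⁆) : f z ^ n ∈ ⁅Rt (f z), Rt (f z)⁆ := by
  have h1 : f (z ^ n) ∈ (⁅Rt z, Rt z⁆).map f := ⟨_, h, rfl⟩
  rw [Subgroup.map_commutator, map_pow] at h1
  exact Subgroup.commutator_mono (map_Rt f z) (map_Rt f z) h1

/-- a root of a power of `z` commutes with a power of `z` -/
theorem IsRt.mem_KC {G : Type} [Group G] {z w : G} (h : IsRt z w) : w ∈ KC z := by
  obtain ⟨a, b, ha, hb, h⟩ := h
  refine ⟨b.natAbs, Int.natAbs_pos.2 hb, ?_⟩
  have h1 : Commute w (z ^ b) := by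
    rw [← h]
    exact (Commute.refl w).pow_right a
  rcases Int.natAbs_eq b with h2 | h2
  · have h3 : z ^ b.natAbs = z ^ b := by
      conv_rhs => rw [h2]
      rw [zpow_natCast]
    rw [h3]
    exact h1.eq
  · have h3 : z ^ b.natAbs = (z ^ b)⁻¹ := by
      conv_rhs => rw [h2]
      rw [zpow_neg, inv_inv, zpow_natCast]
    rw [h3]
    exact h1.inv_right.eq

theorem Rt_le_KC {G : Type} [Group G] (z : G) : Rt z ≤ KC z :=
  (Subgroup.closure_le _).2 fun _ hw => IsRt.mem_KC hw

theorem RD.of_det {G : Type} [Group G] (h : Det G) : RD G := by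
  intro z hz n hn hmem
  exact h z hz n hn (Subgroup.commutator_mono (Rt_le_KC z) (Rt_le_KC z) hmem)

/-- detection in sufficiently many images -/
theorem RD.of_hom {G : Type} [Group G]
    (h : ∀ z : G, (∀ n : ℕ, 0 < n → z ^ n ≠ 1) → ∃ (H : Type) (_ : Group H) (f : G →* H), RD H ∧
      ∀ n : ℕ, 0 < n → f z ^ n ≠ 1) : RD G := by
  intro z hz n hn hmem
  obtain ⟨H, _, f, hH, hf⟩ := h z hz
  exact hH (f z) hf n hn (push f hmem)

theorem RD.of_injective {G H : Type} [Group G] [Group H] (f : G →* H)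
    (hf : Function.Injective f) (hH : RD H) : RD G :=
  RD.of_hom fun z hz => ⟨H, inferInstance, f, hH, fun n hn h =>
    hz n hn (hf (by rw [map_pow, h, map_one]))⟩

theorem RD.prod {G H : Type} [Group G] [Group H] (hG : RD G) (hH : RD H) : RD (G × H) := by
  refine RD.of_hom fun z hz => ?_
  by_cases h1 : InfOrd z.1
  · exact ⟨G, inferInstance, MonoidHom.fst G H, hG, h1⟩
  · refine ⟨H, inferInstance, MonoidHom.snd G H, hH, fun n hn h => ?_⟩
    unfold InfOrd at h1
    push Not at h1
    obtain ⟨m, hm, h1⟩ := h1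
    refine hz (m * n) (Nat.mul_pos hm hn) (Prod.ext ?_ ?_)
    · show z.1 ^ (m * n) = 1
      rw [pow_mul, h1, one_pow]
    · show z.2 ^ (m * n) = 1
      have h2 : z.2 ^ n = 1 := h
      rw [mul_comm, pow_mul, h2, one_pow]

theorem rd_torsion {G : Type} [Group G] (h : ∀ a : G, ∃ n : ℕ, 0 < n ∧ a ^ n = 1) : RD G := by
  intro z hz
  obtain ⟨n, hn, h1⟩ := h z
  exact absurd h1 (hz n hn)

theorem rd_comm {G : Type} [Group G] (h : ∀ a b : G, a * b = b * a) : RD G :=
  RD.of_det (Q27.HT.det_comm h)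

/-- pairwise commuting roots -/
theorem rd_of_commute {G : Type} [Group G]
    (h : ∀ z w w' : G, (∀ n : ℕ, 0 < n → z ^ n ≠ 1) → IsRt z w → IsRt z w' → w * w' = w' * w) :
    RD G := by
  intro z hz n hn hmem
  have h1 : Rt z ≤ Subgroup.centralizer {w | IsRt z w} := by
    refine (Subgroup.closure_le _).2 fun w hw => ?_
    rw [SetLike.mem_coe, Subgroup.mem_centralizer_iff]
    intro w' hw'
    exact h z w' w hz hw' hw
  have h2 : Rt z ≤ Subgroup.centralizer (Rt z : Set G) := by
    refine (Subgroup.closure_le _).2 fun w hw => ?_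
    rw [SetLike.mem_coe, Subgroup.mem_centralizer_iff]
    intro x hx
    exact ((Subgroup.mem_centralizer_iff.1 (h1 hx)) w hw).symm
  have h3 : ⁅Rt z, Rt z⁆ ≤ ⊥ := by
    rw [Subgroup.commutator_le]
    intro a ha b hb
    rw [Subgroup.mem_bot, commutatorElement_eq_one_iff_mul_comm]
    exact (Subgroup.mem_centralizer_iff.1 (h2 hb)) a ha
  exact hz n hn (Subgroup.mem_bot.1 (h3 hmem))

/-- groups with unique roots -/
theorem rd_of_unique {G : Type} [Group G]
    (h : ∀ (x y : G) (n : ℕ), 0 < n → x ^ n = y ^ n → x = y) : RD G := by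
  refine rd_of_commute ?_
  rintro z w w' - ⟨a, b, ha, hb, h1⟩ ⟨c, d, hc, hd, h2⟩
  -- `w` commutes with a power of `w'`
  have hN : 0 < c * b.natAbs := Nat.mul_pos hc (Int.natAbs_pos.2 hb)
  have h3 : Commute w (w' ^ (c * b.natAbs)) := by
    have h4 : Commute w (z ^ b) := by
      rw [← h1]
      exact (Commute.refl w).pow_right a
    rw [pow_mul, h2, ← zpow_natCast, ← zpow_mul, mul_comm, ]
    rcases Int.natAbs_eq b with h5 | h5
    · rw [← h5, zpow_mul]
      exact h4.zpow_right d
    · have h6 : ((b.natAbs : ℤ)) = -b := by omega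
      rw [h6, zpow_mul, zpow_neg]
      exact (h4.inv_right).zpow_right d
  have h4 : (w * w' * w⁻¹) ^ (c * b.natAbs) = w' ^ (c * b.natAbs) := by
    rw [conj_pow, h3.eq, mul_inv_cancel_right]
  have h5 := h _ _ _ hN h4
  rw [mul_inv_eq_iff_eq_mul] at h5
  exact h5

/-- the property is local -/
theorem RD.of_local {G : Type} [Group G]
    (h : ∀ s : Finset G, RD (Subgroup.closure (s : Set G))) : RD G := by
  classical
  intro z hz n hn hmem
  obtain ⟨s, hs, h1⟩ := exists_finset hmem
  -- the elements of `s` are products of finitely many roots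
  have h2 : ∀ x ∈ Rt z, ∃ t : Finset G, (∀ w ∈ t, IsRt z w) ∧ x ∈ Subgroup.closure (t : Set G) := by
    intro x hx
    refine Subgroup.closure_induction (p := fun x _ => ∃ t : Finset G, (∀ w ∈ t, IsRt z w) ∧
      x ∈ Subgroup.closure (t : Set G)) ?_ ?_ ?_ ?_ hx
    · intro w hw
      exact ⟨{w}, fun v hv => by rw [Finset.mem_singleton.1 hv]; exact hw,
        Subgroup.subset_closure (by simp)⟩
    · exact ⟨∅, by simp, Subgroup.one_mem _⟩
    · rintro a b _ _ ⟨t, ht, h1⟩ ⟨t', ht', h2⟩
      refine ⟨t ∪ t', ?_, Subgroup.mul_mem _ ?_ ?_⟩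
      · intro w hw
        rcases Finset.mem_union.1 hw with h | h
        · exact ht w h
        · exact ht' w h
      · exact Subgroup.closure_mono (by simp) h1
      · exact Subgroup.closure_mono (by simp) h2
    · rintro a _ ⟨t, ht, h1⟩
      exact ⟨t, ht, Subgroup.inv_mem _ h1⟩
  have h3 : ∃ t : Finset G, (∀ w ∈ t, IsRt z w) ∧ (s : Set G) ⊆ Subgroup.closure (t : Set G) := by
    clear h1
    induction s using Finset.induction_on with
    | empty => exact ⟨∅, by simp, by simp⟩
    | insert a s _ ih =>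
      rw [Finset.coe_insert, Set.insert_subset_iff] at hs
      obtain ⟨t, ht, h4⟩ := ih hs.2
      obtain ⟨t', ht', h5⟩ := h2 a hs.1
      refine ⟨t ∪ t', ?_, ?_⟩
      · intro w hw
        rcases Finset.mem_union.1 hw with h | h
        · exact ht w h
        · exact ht' w h
      · rw [Finset.coe_insert, Set.insert_subset_iff]
        exact ⟨Subgroup.closure_mono (by simp) h5, h4.trans (Subgroup.closure_mono (by simp))⟩
  obtain ⟨t, ht, hst⟩ := h3
  have h4 : z ^ n ∈ ⁅Subgroup.closure (t : Set G), Subgroup.closure (t : Set G)⁆ := by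
    have h5 : Subgroup.closure (s : Set G) ≤ Subgroup.closure (t : Set G) :=
      (Subgroup.closure_le _).2 hst
    exact Subgroup.commutator_mono h5 h5 h1
  obtain ⟨S, hS⟩ : ∃ S, S = Subgroup.closure ((insert z t : Finset G) : Set G) := ⟨_, rfl⟩
  have hD : RD S := by
    rw [hS]
    exact h _
  have hzS : z ∈ S := by
    rw [hS]
    exact Subgroup.subset_closure (by simp)
  have hle : Subgroup.closure (t : Set G) ≤ (Rt (⟨z, hzS⟩ : S)).map S.subtype := by
    rw [Subgroup.closure_le]
    intro y hy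
    have hyS : y ∈ S := by
      rw [hS]
      exact Subgroup.subset_closure (by rw [Finset.coe_insert]; exact Or.inr hy)
    obtain ⟨a, b, ha, hb, h2⟩ := ht y hy
    exact ⟨⟨y, hyS⟩, Subgroup.subset_closure ⟨a, b, ha, hb, Subtype.ext h2⟩, rfl⟩
  have h2 := Subgroup.commutator_mono hle hle h4
  rw [← Subgroup.map_commutator] at h2
  obtain ⟨y, hy, hy'⟩ := h2
  have h3 : y = (⟨z, hzS⟩ : S) ^ n := Subtype.ext hy'
  refine hD ⟨z, hzS⟩ (fun m hm h => hz m hm (congrArg Subtype.val h)) n hn ?_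
  rwa [← h3]

/-- extensions with torsion-free quotients -/
theorem RD.of_ext {G Q : Type} [Group G] [Group Q] (f : G →* Q)
    (htf : ∀ (x : Q) (n : ℕ), 0 < n → x ^ n = 1 → x = 1) (hQ : RD Q) (hN : RD f.ker) : RD G := by
  intro z hz n hn hmem
  by_cases hzN : f z = 1
  · have hle : Rt z ≤ (Rt (⟨z, hzN⟩ : f.ker)).map f.ker.subtype := by
      refine (Subgroup.closure_le _).2 ?_
      rintro w ⟨a, b, ha, hb, h⟩
      have hw : f w = 1 := by
        apply htf (f w) a ha
        rw [← map_pow, h, map_zpow, hzN, one_zpow]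
      exact ⟨⟨w, hw⟩, Subgroup.subset_closure ⟨a, b, ha, hb, Subtype.ext h⟩, rfl⟩
    have h2 := Subgroup.commutator_mono hle hle hmem
    rw [← Subgroup.map_commutator] at h2
    obtain ⟨y, hy, hy'⟩ := h2
    have h3 : y = (⟨z, hzN⟩ : f.ker) ^ n := Subtype.ext hy'
    refine hN ⟨z, hzN⟩ (fun m hm h => hz m hm (congrArg Subtype.val h)) n hn ?_
    rwa [← h3]
  · exact hQ (f z) (fun m hm h => hzN (htf _ m hm h)) n hn (push f hmem)

end Q27.RH
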