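import Pool.Agent.Q27.RH.Tree
import Pool.Agent.Q27.SE.Hnn
import Pool.Agent.Q27.HT.Emb

/-!
# The embedding theorem of Higman, Neumann and Neumann inside a class of groups, second version
-/

set_option autoImplicit false

namespace Q27.RH

open SimpleGraph HNNExtension
open scoped Pointwise
open Pool.Agent.Helper270.Tree Pool.Agent.Helper270.HNN
open Q182.Cyl (ClosedA Est InfOrd VcEdges)
open Q182.Tow
open Q182.De (Kz Al)
open Q30.FJ (TorsionFree)
open Q27.SE
open Q27.HT (exists_iso hnn_order)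
open scoped commutatorElement

variable {C : ∀ (G : Type) [Group G], Prop}

section hnn

variable {B : Type} [Group B] {A A' : Subgroup B} {φ : A ≃* A'}

theorem hnn_cyc (hvc : ∀ X : Subgroup B, X = A ∨ X = A' → IsCyclic X) :
    ∀ v w, (graph φ).Adj v w → Finite (Est (HNNExtension B A A' φ) v w) ∨
      IsCyclic (Est (HNNExtension B A A' φ) v w) := by
  intro v w hvw
  obtain ⟨k, X, hX, _, hE⟩ := edge_cases hvw
  right
  rw [hE]
  have h0 := hvc X hX
  have h1 : IsCyclic (X.map (of : B →* HNNExtension B A A' φ)) :=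
    isCyclic_of_surjective ((of : B →* HNNExtension B A A' φ).subgroupMap X)
      (MonoidHom.subgroupMap_surjective _ _)
  exact isCyclic_of_surjective (Subgroup.equivSMul (ConjAct.toConjAct k)
    (X.map (of : B →* HNNExtension B A A' φ))).toMonoidHom (Subgroup.equivSMul _ _).surjective

theorem hnn_rd (hB : RD B) (hvc : ∀ X : Subgroup B, X = A ∨ X = A' → IsCyclic X) :
    RD (HNNExtension B A A' φ) :=
  rd_tree treeAct (hnn_cyc hvc) fun v => by
    obtain ⟨e, he⟩ := Q27.HT.stab_hom v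
    exact hB.of_injective e he

theorem hnn_C (hC : ClosedA C) (hmet : ∀ (G : Type) [Group G], derivedSeries G 2 = ⊥ → C G)
    (hB : C B) (hD : RD B) (hvc : ∀ X : Subgroup B, X = A ∨ X = A' → IsCyclic X) :
    C (HNNExtension B A A' φ) := by
  refine mem_tree hC hmet treeAct (hnn_cyc hvc) (fun v => ?_) (fun v => ?_)
  · obtain ⟨e, he⟩ := Q27.HT.stab_hom v
    exact hC.base.base.of_injective _ _ e he hB
  · obtain ⟨e, he⟩ := Q27.HT.stab_hom v
    exact hD.of_injective e he

end hnn

/-- the properties of the groups of the tower over `K` -/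
def Pr (C : ∀ (G : Type) [Group G], Prop) (K : Type) [Group K] (G : Type) [Group G] : Prop :=
  C G ∧ RD G ∧ Countable G ∧
    ∀ x : G, (∃ n : ℕ, 0 < n ∧ x ^ n = 1) → ∃ y : K, orderOf y = orderOf x

/-- one step -/
theorem conj_step (hC : ClosedA C)
    (hmet : ∀ (G : Type) [Group G], derivedSeries G 2 = ⊥ → C G) (K G : Type) [Group K] [Group G]
    (hG : Pr C K G) (a b : G) :
    ∃ (G' : Type) (_ : Group G') (i : G →* G'), Function.Injective i ∧ Pr C K G' ∧
      (orderOf a = orderOf b → ∃ t : G', i b = t * i a * t⁻¹) := by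
  obtain ⟨h1, h2, h3, h4⟩ := hG
  by_cases hab : orderOf a = orderOf b
  swap
  · exact ⟨G, inferInstance, MonoidHom.id G, Function.injective_id, ⟨h1, h2, h3, h4⟩,
      fun h => absurd h hab⟩
  obtain ⟨φ, hφ⟩ := exists_iso hab
  have hvc : ∀ X : Subgroup G, X = Subgroup.zpowers a ∨ X = Subgroup.zpowers b → IsCyclic X := by
    rintro X (rfl | rfl)
    · infer_instance
    · infer_instance
  refine ⟨HNNExtension G (Subgroup.zpowers a) (Subgroup.zpowers b) φ, inferInstance, of,
    of_injective φ, ⟨hnn_C hC hmet h1 h2 hvc, hnn_rd h2 hvc, hnn_countable, fun x hx => ?_⟩,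
    fun _ => ⟨t, ?_⟩⟩
  · obtain ⟨y, hy⟩ := hnn_order x hx
    have hx' : 0 < orderOf x := by
      obtain ⟨n, hn, h⟩ := hx
      exact orderOf_pos_iff.2 (isOfFinOrder_iff_pow_eq_one.2 ⟨n, hn, h⟩)
    obtain ⟨w, hw⟩ := h4 y ⟨orderOf y, by rw [hy]; exact hx', pow_orderOf_eq_one y⟩
    exact ⟨w, hw.trans hy⟩
  · have h5 := equiv_eq_conj (φ := φ) ⟨a, Subgroup.mem_zpowers a⟩
    rw [hφ] at h5
    exact h5

/-- detection in unions of chains -/
theorem rd_lim {L : Type} [Group L] {T : ℕ → Type} [∀ n, Group (T n)]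
    (ι : ∀ n, T n →* T (n + 1)) (e : ∀ n, T n →* L)
    (he : ∀ n, Function.Injective (e n)) (heι : ∀ n x, e (n + 1) (ι n x) = e n x)
    (hs : ∀ y, ∃ n x, e n x = y) (hT : ∀ n, RD (T n)) : RD L := by
  classical
  refine RD.of_local fun S => ?_
  have hmono : ∀ n, (e n).range ≤ (e (n + 1)).range := by
    rintro n _ ⟨x, rfl⟩
    exact ⟨ι n x, heι n x⟩
  have hmono' : Monotone (fun n => (e n).range) := monotone_nat_of_le_succ hmono
  obtain ⟨n, hn⟩ : ∃ n, (S : Set L) ⊆ (e n).range := by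
    induction S using Finset.induction_on with
    | empty => exact ⟨0, by simp⟩
    | insert a S _ ih =>
      obtain ⟨n, hn⟩ := ih
      obtain ⟨m, x, hx⟩ := hs a
      refine ⟨max n m, ?_⟩
      rw [Finset.coe_insert, Set.insert_subset_iff]
      exact ⟨hmono' (le_max_right n m) ⟨x, hx⟩, hn.trans (hmono' (le_max_left n m))⟩
  have hle : Subgroup.closure (S : Set L) ≤ (e n).range := by
    rw [Subgroup.closure_le]
    exact hn
  exact (hT n).of_injective (((MonoidHom.ofInjective (he n)).symm.toMonoidHom).comp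
    (Subgroup.inclusion hle)) ((MonoidHom.ofInjective (he n)).symm.injective.comp
      (Subgroup.inclusion_injective hle))

theorem conj_level (hC : ClosedA C)
    (hmet : ∀ (G : Type) [Group G], derivedSeries G 2 = ⊥ → C G) (K₀ K : Type) [Group K₀] [Group K]
    (hK : Pr C K₀ K) :
    ∃ (L : Type) (_ : Group L) (i : K →* L), Function.Injective i ∧ Pr C K₀ L ∧
      ∀ a b : K, orderOf a = orderOf b → ∃ t : L, i b = t * i a * t⁻¹ := by
  have := hK.2.2.1
  obtain ⟨q, hq⟩ := exists_surjective_nat (K × K)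
  obtain ⟨L, iL, T, iT, f, ι, e, hf0, hfs, hPr, hSt, he, heι, hs, hlim⟩ := indexed_tower K
    (fun G _ => Pr C K₀ G)
    (fun j G G' _ _ f i => orderOf (f (q j).1) = orderOf (f (q j).2) → ∃ t : G',
      i (f (q j).2) = t * i (f (q j).1) * t⁻¹)
    (by
      intro j G _ f hG
      obtain ⟨G', iG', i, h1, h2, h3⟩ := conj_step hC hmet K₀ G hG (f (q j).1) (f (q j).2)
      exact ⟨G', iG', i, h1, h2, h3⟩) hK
  have hfe : ∀ n (x : K), e n (f n x) = e 0 (f 0 x) := by
    intro n x
    induction n with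
    | zero => rfl
    | succ n ih => rw [hfs, MonoidHom.comp_apply, heι, ih]
  have hfinj : ∀ n, Function.Injective (f n) := by
    intro n x y hxy
    apply hf0
    apply he 0
    rw [← hfe n, ← hfe n, hxy]
  refine ⟨L, iL, (e 0).comp (f 0), (he 0).comp hf0, ⟨hlim C hC.base.base fun n => (hPr n).1, ?_,
    countable_lim e hs fun n => (hPr n).2.2.1, ?_⟩, ?_⟩
  · exact rd_lim ι e he heι hs fun n => (hPr n).2.1
  · intro x hx
    obtain ⟨n, y, rfl⟩ := hs x
    obtain ⟨m, hm, h1⟩ := hx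
    obtain ⟨w, hw⟩ := (hPr n).2.2.2 y ⟨m, hm, he n (by rw [map_pow, h1, map_one])⟩
    exact ⟨w, hw.trans (orderOf_injective _ (he n) y).symm⟩
  · intro a b hab
    obtain ⟨j, hj⟩ := hq (a, b)
    have h1 := hSt j
    rw [hj] at h1
    obtain ⟨t, ht⟩ := h1 (by
      rw [orderOf_injective _ (hfinj j), orderOf_injective _ (hfinj j)]
      exact hab)
    refine ⟨e (j + 1) t, ?_⟩
    have h2 := congrArg (e (j + 1)) ht
    simp only [map_mul, map_inv, heι, hfe] at h2
    exact h2

/-- **the theorem of Higman, Neumann and Neumann inside `C`** -/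
theorem embed (hC : ClosedA C)
    (hmet : ∀ (G : Type) [Group G], derivedSeries G 2 = ⊥ → C G) (G : Type) [Group G]
    [Countable G] (hG : C G) (hD : RD G) :
    ∃ (M : Type) (_ : Group M) (i : G →* M), Function.Injective i ∧ C M ∧ RD M ∧ Countable M ∧
      (∀ a b : M, orderOf a = orderOf b → ∃ t : M, b = t * a * t⁻¹) ∧
      ∀ x : M, (∃ n : ℕ, 0 < n ∧ x ^ n = 1) → ∃ y : G, orderOf y = orderOf x := by
  obtain ⟨L, iL, T, iT, ι, e, i, hi, hPr, hSt, he, heι, hs, hlim⟩ := tower
    (fun K _ => Pr C G K)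
    (fun K K' _ _ f => ∀ a b : K, orderOf a = orderOf b → ∃ t : K', f b = t * f a * t⁻¹)
    (by
      intro K _ hK
      obtain ⟨K', iK', j, h1, h2, h3⟩ := conj_level hC hmet G K hK
      exact ⟨K', iK', j, h1, h2, h3⟩) G ⟨hG, hD, inferInstance, fun x _ => ⟨x, rfl⟩⟩
  refine ⟨L, iL, (e 0).comp i, (he 0).comp hi, hlim C hC.base.base fun n => (hPr n).1,
    rd_lim ι e he heι hs fun n => (hPr n).2.1, countable_lim e hs fun n => (hPr n).2.2.1,
    ?_, ?_⟩
  · intro a b hab
    have hmono : ∀ n m, n ≤ m → (e n).range ≤ (e m).range := by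
      intro n m hnm
      induction m, hnm using Nat.le_induction with
      | base => exact le_rfl
      | succ m hm ih =>
        refine ih.trans ?_
        rintro _ ⟨x, rfl⟩
        exact ⟨ι m x, heι m x⟩
    obtain ⟨n, x, rfl⟩ := hs a
    obtain ⟨m, y, rfl⟩ := hs b
    obtain ⟨x', hx'⟩ := hmono n (max n m) (le_max_left _ _) ⟨x, rfl⟩
    obtain ⟨y', hy'⟩ := hmono m (max n m) (le_max_right _ _) ⟨y, rfl⟩
    rw [← hx', ← hy'] at hab ⊢
    rw [orderOf_injective _ (he _), orderOf_injective _ (he _)] at hab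
    obtain ⟨t, ht⟩ := hSt (max n m) x' y' hab
    refine ⟨e _ t, ?_⟩
    have h2 := congrArg (e (max n m + 1)) ht
    simp only [map_mul, map_inv, heι] at h2
    exact h2
  · intro x hx
    obtain ⟨n, y, rfl⟩ := hs x
    obtain ⟨m, hm, h1⟩ := hx
    obtain ⟨w, hw⟩ := (hPr n).2.2.2 y ⟨m, hm, he n (by rw [map_pow, h1, map_one])⟩
    exact ⟨w, hw.trans (orderOf_injective _ (he n) y).symm⟩


end Q27.RH
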