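import Pool.Agent.Q27.RH.Defs

/-!
# Examples
-/

set_option autoImplicit false

namespace Q27.RH

/-- bi-ordered groups -/
theorem rd_biorder {G : Type} [Group G] [LinearOrder G]
    (hl : ∀ a b c : G, a < b → c * a < c * b) (hr : ∀ a b c : G, a < b → a * c < b * c) : RD G := by
  have h1 : ∀ (x y : G), x < y → ∀ n : ℕ, x ^ (n + 1) < y ^ (n + 1) := by
    intro x y hxy n
    induction n with
    | zero => simpa using hxy
    | succ n ih =>
      rw [pow_succ x, pow_succ y]
      exact (hr _ _ x ih).trans (hl _ _ _ hxy)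
  refine rd_of_unique fun x y n hn h => ?_
  obtain ⟨m, rfl⟩ : ∃ m, n = m + 1 := ⟨n - 1, by omega⟩
  rcases lt_trichotomy x y with h2 | h2 | h2
  · exact absurd h (h1 x y h2 m).ne
  · exact h2
  · exact absurd h (h1 y x h2 m).ne'

/-- torsion-free nilpotent groups -/
theorem rd_nilpotent (G : Type) [Group G] [Group.IsNilpotent G]
    (htf : ∀ (x : G) (n : ℕ), 0 < n → x ^ n = 1 → x = 1) : RD G := by
  have key : (∀ x ∈ Subgroup.center G, ∀ n : ℕ, 0 < n → x ^ n = 1 → x = 1) →
      ((∀ (x : G) (n : ℕ), 0 < n → x ^ n = 1 → x = 1) ∧ RD G) := by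
    refine Group.nilpotent_center_quotient_ind
      (P := fun G _ _ => (∀ x ∈ Subgroup.center G, ∀ n : ℕ, 0 < n → x ^ n = 1 → x = 1) →
        ((∀ (x : G) (n : ℕ), 0 < n → x ^ n = 1 → x = 1) ∧ RD G)) G ?_ ?_
    · intro G _ _ _
      exact ⟨fun x n _ _ => Subsingleton.elim _ _,
        rd_comm fun a b => Subsingleton.elim _ _⟩
    · intro G _ _ ih hZ
      -- the center of the quotient by the center is torsion-free
      have h1 : ∀ x ∈ Subgroup.center (G ⧸ Subgroup.center G), ∀ n : ℕ, 0 < n → x ^ n = 1 →
          x = 1 := by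
        intro x hx n hn hxn
        obtain ⟨g, rfl⟩ := QuotientGroup.mk_surjective x
        have hgn : g ^ n ∈ Subgroup.center G := by
          rw [← QuotientGroup.eq_one_iff]
          exact hxn
        rw [QuotientGroup.eq_one_iff, Subgroup.mem_center_iff]
        intro y
        -- the commutator of `g` and `y` is central
        have h2 : y * g * y⁻¹ * g⁻¹ ∈ Subgroup.center G := by
          rw [← QuotientGroup.eq_one_iff]
          have h3 := Subgroup.mem_center_iff.1 hx (QuotientGroup.mk y)
          show (QuotientGroup.mk y * QuotientGroup.mk g * (QuotientGroup.mk y)⁻¹ *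
            (QuotientGroup.mk g)⁻¹ : G ⧸ Subgroup.center G) = 1
          rw [h3, mul_inv_cancel_right, mul_inv_cancel]
        obtain ⟨c, hc⟩ : ∃ c, c = y * g * y⁻¹ * g⁻¹ := ⟨_, rfl⟩
        rw [← hc] at h2
        have h3 : y * g * y⁻¹ = c * g := by rw [hc]; group
        have h4 : (c * g) ^ n = c ^ n * g ^ n :=
          (show Commute c g from ((Subgroup.mem_center_iff.1 h2) g).symm).mul_pow n
        have h5 : (y * g * y⁻¹) ^ n = g ^ n := by
          rw [conj_pow, (Subgroup.mem_center_iff.1 hgn) y, mul_inv_cancel_right]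
        rw [h3, h4] at h5
        have h6 : c ^ n = 1 := by
          have h7 : c ^ n * g ^ n = 1 * g ^ n := by rw [h5, one_mul]
          exact mul_right_cancel h7
        have h7 := hZ c h2 n hn h6
        rw [h7, one_mul] at h3
        rw [mul_inv_eq_iff_eq_mul] at h3
        exact h3
      obtain ⟨h2, h3⟩ := ih h1
      have h4 : ∀ (x : G) (n : ℕ), 0 < n → x ^ n = 1 → x = 1 := by
        intro x n hn hx
        have h5 : (QuotientGroup.mk x : G ⧸ Subgroup.center G) = 1 := by
          apply h2 _ n hn
          rw [← QuotientGroup.mk_pow, hx, QuotientGroup.mk_one]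
        exact hZ x ((QuotientGroup.eq_one_iff x).1 h5) n hn hx
      refine ⟨h4, ?_⟩
      refine RD.of_ext (QuotientGroup.mk' (Subgroup.center G)) h2 h3 (rd_comm ?_)
      rintro ⟨a, ha⟩ ⟨b, hb⟩
      apply Subtype.ext
      have ha' : a ∈ Subgroup.center G := by
        rw [← QuotientGroup.ker_mk' (Subgroup.center G)]
        exact ha
      exact ((Subgroup.mem_center_iff.1 ha') b).symm
  exact (key fun x _ n hn h => htf x n hn h).2

end Q27.RH
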