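import Pool.Agent.Q27.RH.Defs
import Pool.Agent.Q27.HT.Det
import Pool.Agent.Q182.DeFin

/-!
# Groups acting on trees with finite or cyclic edge stabilizers
-/

set_option autoImplicit false

namespace Q27.RH

open SimpleGraph
open Pool.Agent.Helper270.Tree
open Q182.Cyl (ClosedA Est InfOrd VcEdges)
open Q182.De (Fam MM mem_MM comm_tors NE)
open Q182.Hv (KK mem_KK)
open Q27.HT (KC mem_KC)
open scoped commutatorElement

variable {G V : Type} [Group G] [MulAction G V] {T : SimpleGraph V}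

theorem pow_fix (g : G) {v : V} (h : g • v = v) (i : ℕ) : g ^ i • v = v := by
  induction i with
  | zero => rw [pow_zero, one_smul]
  | succ i ih => rw [pow_succ, mul_smul, h, ih]

theorem zpow_fix (g : G) {v : V} (h : g • v = v) (i : ℤ) : g ^ i • v = v := by
  rcases Int.eq_nat_or_neg i with ⟨n, rfl | rfl⟩
  · rw [zpow_natCast]
    exact pow_fix g h n
  · rw [zpow_neg, zpow_natCast, inv_smul_eq_iff]
    exact (pow_fix g h n).symm

/-- an element with a power which fixes a vertex fixes a vertex -/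
theorem elliptic_of_pow_fix (hT : TreeAct G T) {w : G} {a : ℕ} (ha : 0 < a) {u : V}
    (h : w ^ a • u = u) : ∃ v : V, w • v = v := by
  by_contra hcon
  push Not at hcon
  obtain ⟨L, l, hax⟩ := hT.exists_axis hcon
  have hax' : IsAxis T (w ^ a) L (a * l) :=
    { line := hax.line
      pos := Nat.mul_pos ha hax.pos
      smul := fun i => by
        have h1 := hax.smul_zpow (a : ℤ) i
        rw [zpow_natCast] at h1
        rw [h1]
        push_cast
        rfl }
  obtain ⟨i, rfl⟩ := hT.mem_axis hax' (z := u) (by rw [h, SimpleGraph.dist_self]; omega)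
  rw [hax'.smul] at h
  have h1 := hax.line.injective hT.isTree h
  have h2 := hax'.pos
  omega

/-- the subgroup of the stabilizer of `v` generated by the roots of powers of `z` -/
def Rv (z : G) (v : V) : Subgroup G := Subgroup.closure {w | w • v = v ∧ IsRt z w}

theorem Rv_fix {z : G} {v : V} {w : G} (h : w ∈ Rv z v) : w • v = v := by
  have h1 : Rv z v ≤ MulAction.stabilizer G v := (Subgroup.closure_le _).2 fun _ h => h.1
  exact h1 h

theorem Rv_le_KC (z : G) (v : V) : Rv z v ≤ KC z :=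
  (Subgroup.closure_le _).2 fun _ h => IsRt.mem_KC h.2

theorem al_Rv {v : V} (hD : RD (MulAction.stabilizer G v)) {z : G} (hz : InfOrd z) {m : ℕ}
    (hm : 0 < m) (hv : z ^ m • v = v) (n : ℕ) (hn : 0 < n) : z ^ n ∉ ⁅Rv z v, Rv z v⁆ := by
  intro hmem
  obtain ⟨c, hc⟩ : ∃ c : MulAction.stabilizer G v, (c : G) = z ^ m := ⟨⟨z ^ m, hv⟩, rfl⟩
  have hci : InfOrd c := fun i hi h => hz (m * i) (Nat.mul_pos hm hi) (by
    rw [pow_mul, ← hc, ← Subgroup.coe_pow, h, Subgroup.coe_one])
  have hle : Rv z v ≤ (Rt c).map (MulAction.stabilizer G v).subtype := by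
    refine (Subgroup.closure_le _).2 ?_
    rintro w ⟨hw, a, b, ha, hb, h⟩
    refine ⟨⟨w, hw⟩, Subgroup.subset_closure ⟨a * m, b, Nat.mul_pos ha hm, hb, Subtype.ext ?_⟩, rfl⟩
    show w ^ (a * m) = ((c ^ b : MulAction.stabilizer G v) : G)
    rw [Subgroup.coe_zpow, hc, pow_mul, h, ← zpow_natCast, ← zpow_natCast, ← zpow_mul, ← zpow_mul,
      mul_comm]
  have h2 := Subgroup.commutator_mono hle hle hmem
  rw [← Subgroup.map_commutator] at h2
  obtain ⟨y, hy, hy'⟩ := h2
  have hy'' : (y : G) = z ^ n := hy'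
  have h3 : y ^ m = c ^ n := by
    apply Subtype.ext
    rw [Subgroup.coe_pow, Subgroup.coe_pow, hc, hy'', ← pow_mul, ← pow_mul, mul_comm]
  apply hD c hci n hn
  rw [← h3]
  exact Subgroup.pow_mem _ hy m

/-- elements of an infinite cyclic edge stabilizer which contains a power of `z` -/
theorem mem_Rv_of_edge {v w : V} (hcyc : Finite (Est G v w) ∨ IsCyclic (Est G v w)) {z : G}
    (hz : InfOrd z) {k : ℕ} (hk : 0 < k) (hkv : z ^ k • v = v) (hkw : z ^ k • w = w) {g : G}
    (hgv : g • v = v) (hgw : g • w = w) : g ∈ Rv z v := by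
  have hkE : z ^ k ∈ Est G v w := ⟨hkv, hkw⟩
  have hgE : g ∈ Est G v w := ⟨hgv, hgw⟩
  have hcy : IsCyclic (Est G v w) := by
    rcases hcyc with h | h
    · exfalso
      obtain ⟨n, hn, h1⟩ := isOfFinOrder_iff_pow_eq_one.1
        (isOfFinOrder_of_finite (⟨z ^ k, hkE⟩ : Est G v w))
      exact hz (k * n) (Nat.mul_pos hk hn) (by
        rw [pow_mul]
        exact congrArg Subtype.val h1)
    · exact h
  obtain ⟨c, hc⟩ := hcy.exists_generator
  obtain ⟨i, hi⟩ := Subgroup.mem_zpowers_iff.1 (hc ⟨z ^ k, hkE⟩)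
  obtain ⟨j, hj⟩ := Subgroup.mem_zpowers_iff.1 (hc ⟨g, hgE⟩)
  have hi' : (c : G) ^ i = z ^ k := congrArg Subtype.val hi
  have hj' : (c : G) ^ j = g := congrArg Subtype.val hj
  by_cases hj0 : j = 0
  · rw [hj0, zpow_zero] at hj'
    rw [← hj']
    exact one_mem _
  · have hi0 : i ≠ 0 := by
      rintro rfl
      rw [zpow_zero] at hi'
      exact hz k hk hi'.symm
    refine Subgroup.subset_closure ⟨hgv, i.natAbs, i.sign * (k * j), Int.natAbs_pos.2 hi0, ?_, ?_⟩
    · exact mul_ne_zero (by simpa using hi0) (mul_ne_zero (by omega) hj0)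
    · rw [← zpow_natCast, ← hj', ← zpow_mul]
      have h1 : z ^ (i.sign * (k * j)) = (c : G) ^ (i * (i.sign * j)) := by
        rw [zpow_mul (c : G), hi', ← zpow_natCast, ← zpow_mul]
        congr 1
        ring
      rw [h1]
      congr 1
      have h2 : (i.natAbs : ℤ) = i * i.sign := by
        rw [mul_comm, Int.sign_mul_self_eq_natAbs]
      rw [h2]
      ring

/-- membership in `C` -/
theorem mem_tree {C : ∀ (G : Type) [Group G], Prop} (hC : ClosedA C)
    (hmet : ∀ (G : Type) [Group G], derivedSeries G 2 = ⊥ → C G) (hT : TreeAct G T)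
    (hcyc : ∀ v w, T.Adj v w → Finite (Est G v w) ∨ IsCyclic (Est G v w))
    (hst : ∀ v : V, C (MulAction.stabilizer G v))
    (hrd : ∀ v : V, RD (MulAction.stabilizer G v)) : C G := by
  refine Q182.De.cyl_main2 hC hmet hT hcyc hst fun v w hvw z hz hzi => Or.inr ?_
  intro n hn hmem
  refine al_Rv (hrd v) hzi one_pos (by rw [pow_one]; exact hz.1) n hn ?_
  have hle : NE T z v ≤ Rv z v := by
    refine (Subgroup.closure_le _).2 ?_
    rintro g ⟨hgv, y, hvy, hgy, k, hk, hky⟩
    exact mem_Rv_of_edge (hcyc v y hvy) hzi hk (pow_fix z hz.1 k) hky hgv hgy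
  exact Subgroup.commutator_mono hle hle hmem

/-- hyperbolic elements are detected -/
theorem hyp_not_mem (hT : TreeAct G T) {z : G} (hell : ∀ v : V, ∀ m : ℕ, 0 < m → z ^ m • v ≠ v)
    {n : ℕ} (hn : 0 < n) : z ^ n ∉ ⁅KC z, KC z⁆ := by
  classical
  have h0 : ∀ v : V, z • v ≠ v := fun v h => hell v 1 one_pos (by rw [pow_one]; exact h)
  obtain ⟨L, l, hax⟩ := hT.exists_axis h0
  have hpos := hax.pos
  have hc : ∀ g : KC z, ∃ c : ℤ, ∀ i, (g : G) • L i = L (c + i) := by
    rintro ⟨g, k, hk, hg⟩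
    have hax' : IsAxis T (z ^ k) L (k * l) :=
      { line := hax.line
        pos := Nat.mul_pos hk hax.pos
        smul := fun i => by
          have h1 := hax.smul_zpow (k : ℤ) i
          rw [zpow_natCast] at h1
          rw [h1]
          push_cast
          rfl }
    exact hT.commute_axis hax' hg
  choose c hc using hc
  have hmul : ∀ g h : KC z, c (g * h) = c g + c h := by
    intro g h
    have h1 := hc (g * h) 0
    have h2 : ((g * h : KC z) : G) • L 0 = L (c g + (c h + 0)) := by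
      rw [Subgroup.coe_mul, mul_smul, hc h, hc g]
    have h3 := hax.line.injective hT.isTree (h1.symm.trans h2)
    omega
  let f : KC z →* Multiplicative ℚ :=
    { toFun := fun g => Multiplicative.ofAdd (c g : ℚ)
      map_one' := by
        have h1 := hmul 1 1
        rw [mul_one] at h1
        have h2 : c 1 = 0 := by omega
        rw [h2]
        simp
      map_mul' := fun g h => by
        rw [hmul, ← ofAdd_add]
        push_cast
        rfl }
  have hz1 : z ∈ KC z := ⟨1, one_pos, by rw [pow_one]⟩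
  refine Q27.HT.not_mem_of_hom f ((KC z).pow_mem hz1 1) ?_ hn
  intro h
  have h1 : c ⟨z ^ 1, (KC z).pow_mem hz1 1⟩ = l := by
    have h2 := hc ⟨z ^ 1, (KC z).pow_mem hz1 1⟩ 0
    have h3 : (z ^ 1) • L 0 = L (0 + l) := by rw [pow_one, hax.smul]
    have h4 := hax.line.injective hT.isTree (h2.symm.trans h3)
    omega
  have h2 : (c ⟨z ^ 1, (KC z).pow_mem hz1 1⟩ : ℚ) = 0 := congrArg Multiplicative.toAdd h
  rw [h1] at h2
  have h3 : (l : ℚ) = 0 := by exact_mod_cast h2
  have h4 : l = 0 := by exact_mod_cast h3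
  omega

/-- **the property is inherited by groups acting on trees with finite or cyclic edge
stabilizers** -/
theorem rd_tree (hT : TreeAct G T)
    (hcyc : ∀ v w, T.Adj v w → Finite (Est G v w) ∨ IsCyclic (Est G v w))
    (hst : ∀ v : V, RD (MulAction.stabilizer G v)) : RD G := by
  classical
  intro z hz n hn hmem
  by_cases hell : ∃ v : V, ∃ m : ℕ, 0 < m ∧ z ^ m • v = v
  swap
  · push Not at hell
    exact hyp_not_mem hT hell hn (Subgroup.commutator_mono (Rt_le_KC z) (Rt_le_KC z) hmem)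
  obtain ⟨Y, hYdef⟩ : ∃ Y : Set V, Y = {v | ∃ m : ℕ, 0 < m ∧ z ^ m • v = v} := ⟨_, rfl⟩
  have memY : ∀ v, v ∈ Y ↔ ∃ m : ℕ, 0 < m ∧ z ^ m • v = v := by
    intro v
    rw [hYdef]
    rfl
  -- each root fixes a vertex of `Y`
  have hroot : ∀ w, IsRt z w → ∃ u ∈ Y, w • u = u := by
    rintro w ⟨a, b, ha, hb, h⟩
    obtain ⟨v, m, hm, hmv⟩ := hell
    obtain ⟨u, hu⟩ := elliptic_of_pow_fix hT (w := w) (a := a * m) (Nat.mul_pos ha hm) (u := v) (by
      have h1 : w ^ (a * m) = (z ^ m) ^ b := by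
        rw [pow_mul, h, ← zpow_natCast, ← zpow_natCast, ← zpow_mul, ← zpow_mul, mul_comm]
      rw [h1]
      exact zpow_fix _ hmv b)
    refine ⟨u, (memY u).2 ⟨b.natAbs, Int.natAbs_pos.2 hb, ?_⟩, hu⟩
    have h1 : z ^ b • u = u := by
      rw [← h]
      exact pow_fix w hu a
    rcases Int.natAbs_eq b with h2 | h2
    · rw [h2, zpow_natCast] at h1
      exact h1
    · rw [h2, zpow_neg, zpow_natCast, inv_smul_eq_iff] at h1
      exact h1.symm
  have hconv : ∀ v ∈ Y, ∀ w ∈ Y, ∀ u, T.dist v u + T.dist u w = T.dist v w → u ∈ Y := by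
    intro v hv w hw u hu
    obtain ⟨m, hm, hmv⟩ := (memY v).1 hv
    obtain ⟨m', hm', hmw⟩ := (memY w).1 hw
    refine (memY u).2 ⟨m * m', Nat.mul_pos hm hm', ?_⟩
    refine hT.convex (u := v) (v := w) ?_ ?_ hu
    · rw [pow_mul]
      exact pow_fix _ hmv _
    · rw [mul_comm, pow_mul]
      exact pow_fix _ hmw _
  have hYne : Y.Nonempty := by
    obtain ⟨v, h⟩ := hell
    exact ⟨v, (memY v).2 h⟩
  -- neighbours
  have hstep : ∀ v ∈ Y, ∀ w ∈ Y, v ≠ w → ∃ u ∈ Y, T.Adj v u := by
    intro v hv w hw hne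
    obtain ⟨q, hq0, hqn, hadj, hd, _⟩ := exists_geod hT.isTree v w
    have hpos : 0 < T.dist v w := hT.isTree.connected.pos_dist_of_ne hne
    have h1 := hadj 0 hpos
    rw [hq0, zero_add] at h1
    refine ⟨q 1, hconv v hv w hw _ ?_, h1⟩
    obtain ⟨h2, h3⟩ := hd 1 hpos
    rw [h2, h3]
    omega
  by_cases hY2 : ∃ v ∈ Y, ∃ w ∈ Y, T.Adj v w
  swap
  · -- a single vertex
    push Not at hY2
    obtain ⟨v, hv⟩ := hYne
    obtain ⟨m, hm, hmv⟩ := (memY v).1 hv
    have hall : ∀ w ∈ Y, w = v := by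
      intro w hw
      by_contra hne
      obtain ⟨u, hu, hvu⟩ := hstep v hv w hw (fun h => hne h.symm)
      exact hY2 v hv u hu hvu
    have hle : Rt z ≤ Rv z v := by
      refine Subgroup.closure_mono ?_
      intro w hw
      obtain ⟨u, hu, hwu⟩ := hroot w hw
      rw [hall u hu] at hwu
      exact ⟨hwu, hw⟩
    exact al_Rv (hst v) hz hm hmv n hn (Subgroup.commutator_mono hle hle hmem)
  obtain ⟨v₁, hv₁, w₁, hw₁, hvw₁⟩ := hY2
  obtain ⟨M, hM⟩ : ∃ M : Subgroup G, M = KC z := ⟨_, rfl⟩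
  have memM : ∀ g : G, g ∈ M ↔ ∃ k : ℕ, 0 < k ∧ g * z ^ k = z ^ k * g := by
    intro g
    rw [hM]
    exact mem_KC
  have hYM : ∀ (g : G) (v : V), g ∈ M → v ∈ Y → g • v ∈ Y := by
    intro g v hg hv
    obtain ⟨k, hk, hg⟩ := (memM g).1 hg
    obtain ⟨m, hm, hmv⟩ := (memY v).1 hv
    refine (memY _).2 ⟨k * m, Nat.mul_pos hk hm, ?_⟩
    have h1 : g * z ^ (k * m) = z ^ (k * m) * g := by
      rw [pow_mul]
      exact ((show Commute g (z ^ k) from hg).pow_right m).eq
    rw [← mul_smul, ← h1, mul_smul]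
    congr 1
    rw [mul_comm k, pow_mul]
    exact pow_fix _ hmv k
  let act : MulAction M Y :=
    { smul := fun k x => ⟨(k : G) • x.1, hYM k x.1 k.2 x.2⟩
      one_smul := fun x => Subtype.ext (one_smul G x.1)
      mul_smul := fun a b x => Subtype.ext (mul_smul (a : G) (b : G) x.1) }
  have hsm : ∀ (k : M) (x : Y), ((k • x : Y) : V) = (k : G) • (x : V) := fun _ _ => rfl
  have hTY : TreeAct M (T.induce Y) := by
    refine ⟨Q182.Csa.isTree_conv hT.isTree Y hYne hconv, ?_, ?_⟩
    · intro k v w h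
      exact hT.adj k v.1 w.1 h
    · rintro k v w h ⟨h1, h2⟩
      exact hT.noInv k v.1 w.1 h ⟨by rw [← hsm, h1], by rw [← hsm, h2]⟩
  have hzM : z ∈ M := (memM z).2 ⟨1, one_pos, by rw [pow_one]⟩
  obtain ⟨c, hc⟩ : ∃ c : M, (c : G) = z := ⟨⟨z, hzM⟩, rfl⟩
  have hci : InfOrd c := fun i hi h => hz i hi (by rw [← hc, ← Subgroup.coe_pow, h, Subgroup.coe_one])
  have hzp : Subgroup.zpowers c = (Subgroup.zpowers z).subgroupOf M := by
    ext k
    constructor
    · rintro ⟨i, rfl⟩
      refine ⟨i, ?_⟩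
      show z ^ i = ((c ^ i : M) : G)
      rw [Subgroup.coe_zpow, hc]
    · rintro ⟨i, hi⟩
      refine ⟨i, Subtype.ext ?_⟩
      show ((c ^ i : M) : G) = k
      rw [Subgroup.coe_zpow, hc]
      exact hi
  -- a power of `z` fixes a given edge
  have hedgepow : ∀ v ∈ Y, ∀ w ∈ Y, ∃ k : ℕ, 0 < k ∧ z ^ k • v = v ∧ z ^ k • w = w := by
    intro v hv w hw
    obtain ⟨m, hm, hmv⟩ := (memY v).1 hv
    obtain ⟨m', hm', hmw⟩ := (memY w).1 hw
    refine ⟨m * m', Nat.mul_pos hm hm', ?_, ?_⟩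
    · rw [pow_mul]
      exact pow_fix _ hmv _
    · rw [mul_comm, pow_mul]
      exact pow_fix _ hmw _
  have hEM : ∀ v ∈ Y, ∀ w ∈ Y, T.Adj v w → Est G v w ≤ M := by
    intro v hv w hw hvw g hg
    obtain ⟨k, hk, hkv, hkw⟩ := hedgepow v hv w hw
    rw [hM]
    exact Rv_le_KC z v (mem_Rv_of_edge (hcyc v w hvw) hz hk hkv hkw hg.1 hg.2)
  have hEs : ∀ x y : Y, Est M x y = (Est G x.1 y.1).subgroupOf M := by
    intro x y
    ext k
    constructor
    · rintro ⟨h1, h2⟩
      exact ⟨congrArg Subtype.val (show k • x = x from h1),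
        congrArg Subtype.val (show k • y = y from h2)⟩
    · rintro ⟨h1, h2⟩
      exact ⟨Subtype.ext h1, Subtype.ext h2⟩
  have hvc : ∀ v w, T.Adj v w → ∃ c ∈ Est G v w, (Subgroup.zpowers c).relIndex (Est G v w) ≠ 0 := by
    intro v w hvw
    rcases hcyc v w hvw with h | h
    · refine ⟨1, one_mem _, ?_⟩
      rw [Subgroup.zpowers_one_eq_bot, Subgroup.relIndex_bot_left]
      exact Nat.card_pos.ne'
    · obtain ⟨c, hc⟩ := h.exists_generator
      refine ⟨c, c.2, ?_⟩
      have h1 : Est G v w ≤ Subgroup.zpowers (c : G) := by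
        intro y hy
        obtain ⟨n, hn⟩ := hc ⟨y, hy⟩
        exact ⟨n, congrArg Subtype.val hn⟩
      rw [Subgroup.relIndex_eq_one.2 h1]
      exact one_ne_zero
  have hF : Fam (T.induce Y) (Subgroup.zpowers c) (fun x : Y => (Rv z x.1).subgroupOf M) :=
    { tree := hTY
      nb := by
        intro x
        by_cases hx : x.1 = v₁
        · exact ⟨⟨w₁, hw₁⟩, by
            show T.Adj x.1 w₁
            rw [hx]
            exact hvw₁⟩
        · obtain ⟨u, hu, hxu⟩ := hstep x.1 x.2 v₁ hv₁ hx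
          exact ⟨⟨u, hu⟩, hxu⟩
      ab := by
        rintro _ ⟨i, rfl⟩ _ ⟨j, rfl⟩
        exact ((Commute.refl c).zpow_zpow i j).eq
      tf := by
        rintro _ ⟨i, rfl⟩ hne
        refine hci.zpow' ?_
        rintro rfl
        exact hne (zpow_zero c)
      com := by
        intro x y hxy
        have hadj : T.Adj x.1 y.1 := hxy
        obtain ⟨k, hk, hkv, hkw⟩ := hedgepow x.1 x.2 y.1 y.2
        have hcom : Subgroup.Commensurable (Subgroup.zpowers z) (Est G x.1 y.1) := by
          refine ⟨fun h0 => ?_, fun h0 => ?_⟩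
          · refine Q182.Cyl.zp_index (hvc _ _ hadj) (Q182.Cyl.InfOrd.pow hz hk) ⟨hkv, hkw⟩ ?_
            exact Subgroup.relIndex_eq_zero_of_le_left
              (Subgroup.zpowers_le.2 (Subgroup.pow_mem _ (Subgroup.mem_zpowers z) k)) h0
          · refine Q182.Cyl.zp_pow_index z k hk ?_
            refine Subgroup.relIndex_eq_zero_of_le_left (Subgroup.zpowers_le.2 ?_) h0
            exact ⟨hkv, hkw⟩
        rw [hzp, hEs]
        refine ⟨?_, ?_⟩
        · rw [Subgroup.relIndex_subgroupOf (hEM _ x.2 _ y.2 hadj)]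
          exact hcom.1
        · rw [Subgroup.relIndex_subgroupOf (Subgroup.zpowers_le.2 hzM)]
          exact hcom.2
      conj := by
        intro g x m hm
        have hm' : (m : G) ∈ Rv z x.1 := hm
        show (g : G) * (m : G) * (g : G)⁻¹ ∈ Rv z ((g : G) • x.1)
        obtain ⟨k, hk, hg⟩ := (memM g).1 g.2
        have h1 : (g : G) * (m : G) * (g : G)⁻¹ ∈ (Rv z x.1).map (MulAut.conj (g : G)).toMonoidHom :=
          ⟨m, hm', rfl⟩
        rw [Rv, MonoidHom.map_closure] at h1
        refine Subgroup.closure_mono ?_ h1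
        rintro _ ⟨w, ⟨hw, a, b, ha, hb, h⟩, rfl⟩
        refine ⟨?_, a * k, b * k, Nat.mul_pos ha hk, mul_ne_zero hb (by omega), ?_⟩
        · show ((g : G) * w * (g : G)⁻¹) • (g : G) • x.1 = (g : G) • x.1
          rw [mul_smul, mul_smul, inv_smul_smul, hw]
        · show ((g : G) * w * (g : G)⁻¹) ^ (a * k) = z ^ (b * (k : ℤ))
          have h2 : (g : G) * (z ^ k) ^ b = (z ^ k) ^ b * (g : G) :=
            ((show Commute (g : G) (z ^ k) from hg).zpow_right b).eq
          rw [conj_pow, pow_mul, h]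
          have h3 : (z ^ b) ^ k = (z ^ k) ^ b := by
            rw [← zpow_natCast, ← zpow_natCast, ← zpow_mul, ← zpow_mul, mul_comm]
          rw [h3, h2, mul_inv_cancel_right, ← zpow_natCast, ← zpow_mul, mul_comm]
      le := by
        intro x m hm
        have hm' : (m : G) ∈ Rv z x.1 := hm
        obtain ⟨k, hk, h⟩ := (memM m).1 m.2
        rw [mem_KK]
        intro h0
        refine Q182.Cyl.zp_pow_index c k hk (Subgroup.relIndex_eq_zero_of_le_left ?_ h0)
        rw [Subgroup.zpowers_le, Subgroup.mem_centralizer_iff]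
        intro y hy
        rw [Set.mem_singleton_iff.1 hy]
        apply Subtype.ext
        show (m : G) * ((c ^ k : M) : G) = ((c ^ k : M) : G) * (m : G)
        rw [Subgroup.coe_pow, hc]
        exact h
      fix := by
        intro x m hm
        have hm' : (m : G) ∈ Rv z x.1 := hm
        exact Subtype.ext (Rv_fix hm')
      edge := by
        intro x y hxy m _ hx hy
        have hadj : T.Adj x.1 y.1 := hxy
        obtain ⟨k, hk, hkv, hkw⟩ := hedgepow x.1 x.2 y.1 y.2
        show (m : G) ∈ Rv z x.1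
        exact mem_Rv_of_edge (hcyc _ _ hadj) hz hk hkv hkw (congrArg Subtype.val hx)
          (congrArg Subtype.val hy)
      det := by
        rintro x _ ⟨j, rfl⟩ h
        by_contra hne
        have hj : j ≠ 0 := by
          rintro rfl
          exact hne (zpow_zero c)
        obtain ⟨m, hm, hmv⟩ := (memY x.1).1 x.2
        have h1 : z ^ j ∈ ⁅Rv z x.1, Rv z x.1⁆ := by
          have h2 : ((c ^ j : M) : G) ∈ (⁅(Rv z x.1).subgroupOf M, (Rv z x.1).subgroupOf M⁆).map
              M.subtype := ⟨_, h, rfl⟩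
          rw [Subgroup.map_commutator, Subgroup.coe_zpow, hc] at h2
          have h3 : ((Rv z x.1).subgroupOf M).map M.subtype ≤ Rv z x.1 := by
            rintro _ ⟨u, hu, rfl⟩
            exact hu
          exact Subgroup.commutator_mono h3 h3 h2
        refine al_Rv (hst x.1) hz hm hmv j.natAbs (Int.natAbs_pos.2 hj) ?_
        rcases Int.natAbs_eq j with h2 | h2
        · have h3 : z ^ j.natAbs = z ^ j := by
            conv_rhs => rw [h2]
            rw [zpow_natCast]
          rw [h3]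
          exact h1
        · have h3 : z ^ j.natAbs = (z ^ j)⁻¹ := by
            conv_rhs => rw [h2]
            rw [zpow_neg, inv_inv, zpow_natCast]
          rw [h3]
          exact Subgroup.inv_mem _ h1 }
  have hle : Rt z ≤ (MM (fun x : Y => (Rv z x.1).subgroupOf M)).map M.subtype := by
    refine (Subgroup.closure_le _).2 ?_
    intro w hw
    obtain ⟨u, hu, hwu⟩ := hroot w hw
    have hwM : w ∈ M := by
      rw [hM]
      exact IsRt.mem_KC hw
    refine ⟨⟨w, hwM⟩, ?_, rfl⟩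
    refine mem_MM (v := (⟨u, hu⟩ : Y)) ?_
    show w ∈ Rv z u
    exact Subgroup.subset_closure ⟨hwu, hw⟩
  have h1 := Subgroup.commutator_mono hle hle hmem
  rw [← Subgroup.map_commutator] at h1
  obtain ⟨y, hy, hy'⟩ := h1
  have hy'' : (y : G) = z ^ n := hy'
  have h2 : y = c ^ n := by
    apply Subtype.ext
    rw [hy'', Subgroup.coe_pow, hc]
  rw [h2] at hy
  obtain ⟨k, hk, hkv, hkw⟩ := hedgepow v₁ hv₁ w₁ hw₁
  have h3 : (c ^ n) ^ k ∈ ⁅MM (fun x : Y => (Rv z x.1).subgroupOf M),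
      MM (fun x : Y => (Rv z x.1).subgroupOf M)⁆ := Subgroup.pow_mem _ hy k
  have hfixk : ∀ v : V, z ^ k • v = v → ((c : G) ^ n) ^ k • v = v := by
    intro v hv
    rw [hc, ← pow_mul, mul_comm, pow_mul]
    exact pow_fix _ hv n
  obtain ⟨j, hj, hj1⟩ := comm_tors hF h3 (v := (⟨v₁, hv₁⟩ : Y)) (w := (⟨w₁, hw₁⟩ : Y)) hvw₁
    (Subtype.ext (hfixk v₁ hkv)) (Subtype.ext (hfixk w₁ hkw))
  refine hci (n * k * j) (Nat.mul_pos (Nat.mul_pos hn hk) hj) ?_
  rw [pow_mul, pow_mul]
  exact hj1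

end Q27.RH
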